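import Pool.Agent.V11190.Quad10

/-!
# Perpendicular chords that quadrisect the perimeter, and the diameter

`MP_0815b2_gt`, Q1 (full, affirmative answer).

Let `[a, c]`, `[b, d]` be perpendicular chords of a plane convex figure `F` that quadrisect its
perimeter `p`.  Then `|a - c| + |b - d| ≥ D(F)`.  This follows from the bound
`2 (|a - c| + |b - d|) ≥ p`, proved in `Pool/Agent/V11190/Quad1.lean` - `Quad10.lean`, and from
`p ≥ 2 D(F)`.
-/

set_option autoImplicit false

open Set Pool.Agent.V11190.Quad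

namespace Pool.Agent.Results.MP_0815b2_gt.DiameterBound

/-- Let `F` be a compact convex set with interior points in the plane, let `γ` run once around its
boundary, and let `a = γ t₁, b = γ t₂, c = γ t₃, d = γ t₄` be four points in this order which cut
the boundary into four arcs of length `p / 4`, where `p` is the length of the boundary.  If the
chords `[a, c]` and `[b, d]` are perpendicular, then the sum of their lengths is at least the
diameter of `F`. -/
theorem result (F : Set ℂ) (hF : Convex ℝ F) (hFc : IsCompact F) (hFi : (interior F).Nonempty)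
    (γ : ℝ → ℂ) (hγ : IsBoundaryLoop F γ) (t₁ t₂ t₃ t₄ : ℝ)
    (h12 : t₁ < t₂) (h23 : t₂ < t₃) (h34 : t₃ < t₄) (h41 : t₄ < t₁ + 1)
    (a1 : eVariationOn γ (Icc t₁ t₂) = eVariationOn γ (Icc 0 1) / 4)
    (a2 : eVariationOn γ (Icc t₂ t₃) = eVariationOn γ (Icc 0 1) / 4)
    (a3 : eVariationOn γ (Icc t₃ t₄) = eVariationOn γ (Icc 0 1) / 4)
    (a4 : eVariationOn γ (Icc t₄ (t₁ + 1)) = eVariationOn γ (Icc 0 1) / 4)
    (hperp : inner ℝ (γ t₃ - γ t₁) (γ t₄ - γ t₂) = 0) :
    Metric.diam F ≤ ‖γ t₁ - γ t₃‖ + ‖γ t₂ - γ t₄‖ := by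
  have h := (main_length hF hFc hFi hγ h12 h23 h34 h41 a1 a2 a3 a4 hperp).1
  rw [norm_sub_rev (γ t₁), norm_sub_rev (γ t₂)]
  refine Metric.diam_le_of_forall_dist_le (by positivity) fun x hx y hy => ?_
  have h2 := (two_diam_le hFc hFi hγ hx hy).trans h
  rw [ENNReal.ofReal_le_ofReal_iff (by positivity)] at h2
  rw [dist_comm, dist_eq_norm]
  linarith

end Pool.Agent.Results.MP_0815b2_gt.DiameterBound
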